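import Mathlib
import Pool.Agent.Y268.D3.Stm3
import Pool.Agent.Y784.KS.CB9

/-!
Degree three bound, job D3-VNBI: von Neumann algebras (assembly), following `Y268/Kad/Deg5.lean`.
-/

set_option autoImplicit false

open scoped ComplexOrder InnerProductSpace ComplexConjugate

noncomputable section

namespace Pool.Agent.Y739.D3

open H759R2.Kad H711R2.KG H770R2.Kad H770R2.Kad.AULT Pool.Agent.Y784.KS Y268.D3

theorem bi_mono {B : Type} [CStarAlgebra B] [PartialOrder B] [StarOrderedRing B]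
    {H : Type} [NormedAddCommGroup H] [InnerProductSpace ℂ H] [CompleteSpace H]
    {u : B →ₗ[ℂ] (H →L[ℂ] H)} {m : ℕ} {C C' : ℝ} (h : Bi u m C) (h0 : 0 ≤ C) (hC : C ≤ C') :
    Bi u m C' := by
  intro X ζ η a b ha hb hζ hη
  refine (h X ζ η a b ha hb hζ hη).trans ?_
  have h1 : 0 ≤ ∑ i, a i ^ 2 := Finset.sum_nonneg fun i _ => sq_nonneg _
  have h2 : 0 ≤ ∑ i, b i ^ 2 := Finset.sum_nonneg fun i _ => sq_nonneg _
  gcongr

/-- The decomposition, with `2 ^ k * 2` partial isometries. -/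
theorem gdec2 {M : Type} [CStarAlgebra M] [PartialOrder M] [StarOrderedRing M] (hM : IsVN M)
    (k : ℕ) :
    ∃ (z : M) (t : Fin (2 ^ k * 2) → M) (i0 : Fin (2 ^ k * 2)) (v : M), GDec z t i0 v ∧
      ∀ (B : Type) [CStarAlgebra B] [PartialOrder B] [StarOrderedRing B] (φ : M →⋆ₐ[ℂ] B),
        Function.Surjective φ → (1 : B) ≠ 0 →
        (∀ z : M, (∀ a, z * a = a * z) → ∃ l : ℂ, φ z = algebraMap ℂ B l) →
        (∃ τ : B →ₗ[ℂ] ℂ, IsTracialState τ) → (∀ K : ℕ, ¬ Small (1 : B) K) →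
        GDec (1 : B) (fun i => φ (t i)) i0 (φ v) := by
  have h := gdec hM p_Q_lift (p_B_trsmall p_B_minle p_T_sub) p_T_sub (p_Q_fib p_Q_lift) (k + 1)
  rw [pow_succ] at h
  exact h

theorem prove_vnbi : S_simbi → S_fibbi → S_smallbi → S_notracebi → S_cenA → S_cenB → S_vnbi := by
  intro hsim hfib hsmall hnotr hA hB L _ _ _ M _ _ H _ _ _ W hW c hc hWc m
  have hc0 : 0 < c := by linarith
  rcases Nat.eq_zero_or_pos m with rfl | hm
  · intro X ζ η a b _ _ _ _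
    rw [PiLp.inner_apply]
    simp
  have hVN : IsVN M.toStarSubalgebra := main_V L M
  obtain ⟨k, hk⟩ : ∃ k : ℕ, 25920 * ((2 * m : ℕ) : ℝ) ^ 11 * c ^ 6 ≤ ((2 ^ k : ℕ) : ℝ) := by
    obtain ⟨k, hk⟩ := pow_unbounded_of_one_lt (25920 * ((2 * m : ℕ) : ℝ) ^ 11 * c ^ 6)
      (show (1 : ℝ) < 2 by norm_num)
    exact ⟨k, by push_cast at hk ⊢; exact hk.le⟩
  obtain ⟨z, t, i0, v, D, hDφ⟩ := gdec2 hVN k
  obtain ⟨W', hW', hW'c, hst, hsv, hback⟩ :=
    hsim M.toStarSubalgebra (2 ^ k * 2) z t i0 v D H W hW c hc0.le hWc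
  apply hback m (1300 * c) (by positivity)
  intro X ζ η a b ha hb hζ hη
  by_contra hcon
  push Not at hcon
  -- the constant `κ`
  obtain ⟨κ, hκ2, hκ1⟩ : ∃ κ : ℝ, κ ^ 2 * (∑ i, a i ^ 2) * (∑ i, b i ^ 2) <
      ‖⟪amp W' (Fin m) X ζ, η⟫_ℂ‖ ^ 2 ∧ 1300 * c * ‖X‖ < κ := by
    have hcont : Continuous fun κ : ℝ => κ ^ 2 * (∑ i, a i ^ 2) * (∑ i, b i ^ 2) := by fun_prop
    have h1 : (1300 * c * ‖X‖) ^ 2 * (∑ i, a i ^ 2) * (∑ i, b i ^ 2) <
        ‖⟪amp W' (Fin m) X ζ, η⟫_ℂ‖ ^ 2 := by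
      rw [mul_pow]
      exact hcon
    have h2 := (hcont.tendsto (1300 * c * ‖X‖)).eventually (gt_mem_nhds h1)
    have h3 : ∀ᶠ κ in nhdsWithin (1300 * c * ‖X‖) (Set.Ioi (1300 * c * ‖X‖)),
        κ ^ 2 * (∑ i, a i ^ 2) * (∑ i, b i ^ 2) < ‖⟪amp W' (Fin m) X ζ, η⟫_ℂ‖ ^ 2 :=
      h2.filter_mono nhdsWithin_le_nhds
    exact (h3.and self_mem_nhdsWithin).exists
  have hX0 : 0 ≤ 1300 * c * ‖X‖ := by positivity
  have hκ0 : 0 ≤ κ := by linarith
  obtain ⟨Fl, f1, f2, f3, f4, f5, f6⟩ := hA M.toStarSubalgebra H W' hW' c hc0.le hW'c m X κ hκ0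
    ζ η a b ha hb hζ hη hκ2
  have hFl : CUlt M Fl := ⟨f1, f2, f3, f4, f5⟩
  obtain ⟨B, _, φ, hφs, hφc, hφr⟩ := fin_hfib L M Fl hFl
  obtain ⟨K, _, _, _, w, hw, hwa, hws, ζ', η', a', b', ha', hb', hζ', hη', hsa, hsb, hκw⟩ :=
    hB L M Fl hFl H W' hW' c hc0.le hW'c m X κ hκ0 f6
  have hinf : ∀ (y : M.toStarSubalgebra) (α x : ℝ), 0 ≤ α → (∀ p ∈ Fl, x ≤ α * ‖p * y‖) →
      x ≤ α * ‖φ y‖ := by
    intro y α x hα h
    refine le_of_forall_pos_le_add ?_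
    intro ε hε
    have hex : ∃ p ∈ Fl, ‖p * y‖ < ‖φ y‖ + ε / (α + 1) := by
      by_contra hcon
      push Not at hcon
      have h1 := hφr y (‖φ y‖ + ε / (α + 1)) hcon
      have : 0 < ε / (α + 1) := by positivity
      linarith
    obtain ⟨p, hp, hpa⟩ := hex
    have h1 : α * (ε / (α + 1)) ≤ ε := by
      rw [mul_div_assoc', div_le_iff₀ (by positivity)]
      nlinarith
    calc x ≤ α * ‖p * y‖ := h p hp
      _ ≤ α * (‖φ y‖ + ε / (α + 1)) := by gcongr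
      _ ≤ α * ‖φ y‖ + ε := by rw [mul_add]; linarith
  have hwφ : ∀ a : M.toStarSubalgebra, ‖w a‖ ≤ c * ‖φ a‖ := fun a =>
    hinf a c _ hc0.le fun p hp => hwa a p hp
  have hfac : ∀ a b : M.toStarSubalgebra, φ a = φ b → w a = w b := by
    intro a b hab
    have e1 := hwφ (a - b)
    rw [map_sub φ, hab, sub_self, norm_zero, mul_zero] at e1
    have e2 : w (a - b) = 0 := norm_le_zero_iff.1 e1
    rw [map_sub] at e2
    exact sub_eq_zero.1 e2
  let s : B → M.toStarSubalgebra := Function.surjInv hφs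
  have hs : ∀ b, φ (s b) = b := Function.surjInv_eq hφs
  let w' : B →ₗ[ℂ] (K →L[ℂ] K) :=
    { toFun := fun b => w (s b)
      map_add' := fun a b => by
        rw [← map_add]
        apply hfac
        rw [map_add, hs, hs, hs]
      map_smul' := fun r a => by
        rw [RingHom.id_apply, ← map_smul]
        apply hfac
        rw [map_smul, hs, hs] }
  have hw'φ : ∀ a, w' (φ a) = w a := by
    intro a
    apply hfac
    rw [hs]
  have hv'φ : ∀ a, vmap w' (φ a) = vmap w a := by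
    intro a
    rw [vmap_apply, vmap_apply, ← map_star φ, hw'φ]
  have hw' : IsHom w' := by
    constructor
    · intro a b
      rw [← hs a, ← hs b, ← map_mul, hw'φ, hw'φ, hw'φ, hw.mul]
    · rw [← map_one φ, hw'φ, hw.one]
  have hw'c : ∀ b, ‖w' b‖ ≤ c * ‖b‖ := by
    intro b
    rw [← hs b, hw'φ]
    exact hwφ _
  have hmζ : ∀ i x, ‖w' x (ζ' i)‖ ≤ a' i * ‖x‖ := by
    intro i x
    rw [← hs x, hw'φ]
    exact hinf _ _ _ (ha' i) fun p hp => hζ' i _ p hp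
  have hmη : ∀ i x, ‖vmap w' x (η' i)‖ ≤ b' i * ‖x‖ := by
    intro i x
    rw [← hs x, hv'φ]
    exact hinf _ _ _ (hb' i) fun p hp => hη' i _ p hp
  let _i1 : PartialOrder B := CStarAlgebra.spectralOrder B
  have _i2 : StarOrderedRing B := CStarAlgebra.spectralOrderedRing B
  have hBi : Bi w' m (1300 * c) := by
    by_cases h1 : (1 : B) ≠ 0
    · have hz : ∀ z : M.toStarSubalgebra, (∀ a, z * a = a * z) →
          ∃ l : ℂ, φ z = algebraMap ℂ B l := by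
        intro z hzc
        obtain ⟨l, hl⟩ := hφc z hzc
        exact ⟨l, by rw [hl, Algebra.algebraMap_eq_smul_one]⟩
      have hBf : IsFib B := p_Q_fib p_Q_lift M.toStarSubalgebra B φ hVN hφs h1 hz
      by_cases hsm : ∃ N, Small (1 : B) N
      · obtain ⟨N, hN⟩ := hsm
        exact bi_mono (hsmall B hBf N hN K w' hw' c hc0.le hw'c m) zero_le_one (by linarith)
      have hns : ∀ N, ¬ Small (1 : B) N := fun N hN => hsm ⟨N, hN⟩
      by_cases ht : ∃ τ : B →ₗ[ℂ] ℂ, IsTracialState τ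
      · obtain ⟨τ, hτ⟩ := ht
        refine hfib B hBf τ hτ hns (2 ^ k) m (fun i => φ (t i)) i0 (φ v)
          (hDφ B φ hφs h1 hz ⟨τ, hτ⟩ hns) hm c hc hk K w' hw' hw'c ?_ ?_
        · intro i
          rw [← map_star φ, hw'φ, hw'φ]
          exact hws _ (hst i)
        · rw [← map_star φ, hw'φ, hw'φ]
          exact hws _ hsv
      · exact bi_mono (hnotr B ht K w' hw' c hc0.le hw'c m) (by positivity) (by linarith)
    · rw [not_not] at h1
      intro Y ζ'' η'' a'' b'' _ _ _ _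
      have hY : Y = 0 := by
        ext i j
        have : (Y i j : B) = 0 := by rw [← mul_one (Y i j), h1, mul_zero]
        exact this
      have h2 : 0 ≤ ∑ i, a'' i ^ 2 := Finset.sum_nonneg fun i _ => sq_nonneg _
      have h3 : 0 ≤ ∑ i, b'' i ^ 2 := Finset.sum_nonneg fun i _ => sq_nonneg _
      rw [hY, map_zero]
      simp
  have h := hBi (CStarMatrix.mapₙₐ (n := Fin m) (φ : M.toStarSubalgebra →⋆ₙₐ[ℂ] B) X) ζ' η' a' b'
    ha' hb' hmζ hmη
  have hn : ‖CStarMatrix.mapₙₐ (n := Fin m) (φ : M.toStarSubalgebra →⋆ₙₐ[ℂ] B) X‖ ≤ ‖X‖ :=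
    NonUnitalStarAlgHom.norm_apply_le _ _
  have he : amp w' (Fin m) (CStarMatrix.mapₙₐ (n := Fin m)
      (φ : M.toStarSubalgebra →⋆ₙₐ[ℂ] B) X) = amp w (Fin m) X := by
    ext ξ i
    rw [amp_apply, amp_apply]
    refine Finset.sum_congr rfl fun j _ => ?_
    rw [← hw'φ]
    rfl
  rw [he] at h
  have h2 : 0 ≤ ∑ i, a' i ^ 2 := Finset.sum_nonneg fun i _ => sq_nonneg _
  have h3 : 0 ≤ ∑ i, b' i ^ 2 := Finset.sum_nonneg fun i _ => sq_nonneg _
  have h4 : ‖⟪amp w (Fin m) X ζ', η'⟫_ℂ‖ ^ 2 ≤ (1300 * c * ‖X‖) ^ 2 := by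
    refine h.trans ?_
    calc (1300 * c) ^ 2 * ‖CStarMatrix.mapₙₐ (n := Fin m)
          (φ : M.toStarSubalgebra →⋆ₙₐ[ℂ] B) X‖ ^ 2 * (∑ i, a' i ^ 2) * ∑ i, b' i ^ 2
        ≤ (1300 * c) ^ 2 * ‖X‖ ^ 2 * 1 * 1 := by gcongr
      _ = (1300 * c * ‖X‖) ^ 2 := by ring
  have h5 := abs_le_of_sq_le_sq' h4 hX0
  linarith [h5.2]

end Pool.Agent.Y739.D3
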